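import Pool.Agent.N697.PJ.ON
import Mathlib

/-!
# Project SR (helper245), for piece CQC (helper13): the order of the orthogonal group of any
nondegenerate symmetric matrix of odd size over a finite field (after `N697/PJ/ON.lean` of helper697)
-/

set_option autoImplicit false
set_option linter.all false

open Polynomial Matrix
open scoped Classical

namespace Pool.Agent.Run7.h13.SR.CQC

open Pool.Agent.N352.PJ (Mt Jm)
open Pool.Agent.N697.PJ (QP step)

variable {F : Type} [Field F]

lemma odd_card [Fintype F] (h2 : (2 : F) ≠ 0) : Fintype.card F % 2 = 1 := by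
  apply FiniteField.odd_card_of_char_ne_two
  intro h
  apply h2
  have := ringChar.Nat.cast_ringChar (R := F)
  rw [h] at this
  exact_mod_cast this

lemma iso_vec [Finite F] (h2 : (2 : F) ≠ 0) {V : Type} [AddCommGroup V] [Module F V]
    (B : V →ₗ[F] V →ₗ[F] F) (hs : ∀ x y, B x y = B y x) (hd : 3 ≤ Module.finrank F V) :
    ∃ e : V, e ≠ 0 ∧ B e e = 0 := by
  by_contra hcon
  push Not at hcon
  haveI := Fintype.ofFinite F
  haveI : FiniteDimensional F V := FiniteDimensional.of_finrank_pos (by omega)
  obtain ⟨x, hx⟩ : ∃ x : V, x ≠ 0 := by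
    haveI : Nontrivial V := Module.nontrivial_of_finrank_pos (R := F) (by omega)
    exact exists_ne 0
  have hk1 : LinearMap.ker (B x) ≠ ⊥ :=
    LinearMap.ker_ne_bot_of_finrank_lt (by rw [Module.finrank_self]; omega)
  obtain ⟨y, hy, hy0⟩ := Submodule.exists_mem_ne_zero_of_ne_bot hk1
  have hk2 : LinearMap.ker ((B x).prod (B y)) ≠ ⊥ :=
    LinearMap.ker_ne_bot_of_finrank_lt (by
      rw [Module.finrank_prod, Module.finrank_self]
      omega)
  obtain ⟨z, hz, hz0⟩ := Submodule.exists_mem_ne_zero_of_ne_bot hk2
  rw [LinearMap.mem_ker] at hy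
  rw [LinearMap.ker_prod, Submodule.mem_inf, LinearMap.mem_ker, LinearMap.mem_ker] at hz
  obtain ⟨hxz, hyz⟩ := hz
  have ha := hcon x hx
  have hb := hcon y hy0
  have hc := hcon z hz0
  have hyx : B y x = 0 := by rw [hs]; exact hy
  have hzx : B z x = 0 := by rw [hs]; exact hxz
  have hzy : B z y = 0 := by rw [hs]; exact hyz
  obtain ⟨s, t, hst⟩ := FiniteField.exists_root_sum_quadratic
    (f := C (B x x) * X ^ 2 + C 0 * X + C 0) (g := C (B y y) * X ^ 2 + C 0 * X + C (B z z))
    (degree_quadratic ha) (degree_quadratic hb) (odd_card h2)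
  simp only [eval_add, eval_mul, eval_C, eval_pow, eval_X] at hst
  apply hcon (s • x + t • y + z)
  · intro h0
    apply hc
    have h1 : B z (s • x + t • y + z) = B z z := by
      simp only [map_add, map_smul, hzx, hzy, smul_eq_mul, mul_zero, zero_add]
    rw [← h1, h0, map_zero]
  · simp only [map_add, map_smul, LinearMap.add_apply, LinearMap.smul_apply, smul_eq_mul, hy, hxz,
      hyz, hyx, hzx, hzy, mul_zero, add_zero, zero_add]
    linear_combination hst

lemma base [Finite F] (h2 : (2 : F) ≠ 0) (V : Type) [AddCommGroup V] [Module F V]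
    (B : V →ₗ[F] V →ₗ[F] F) (hnd : ∀ x, (∀ y, B x y = 0) → x = 0)
    (hfr : Module.finrank F V = 1) : QP B 0 := by
  classical
  haveI : FiniteDimensional F V := FiniteDimensional.of_finrank_pos (by omega)
  haveI : Finite V := Module.finite_of_finite F
  haveI := Fintype.ofFinite F
  haveI := Fintype.ofFinite V
  obtain ⟨u, hu0, hu⟩ := finrank_eq_one_iff'.1 hfr
  have huu : B u u ≠ 0 := by
    intro h
    apply hu0
    apply hnd
    intro y
    obtain ⟨c, rfl⟩ := hu y
    rw [map_smul, h, smul_zero]
  have key : ∀ a : F, B (a • u) (a • u) = a * a * B u u := by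
    intro a
    simp only [map_smul, LinearMap.smul_apply, smul_eq_mul]
    ring
  refine ⟨inferInstance, hnd, ?_, ?_, ?_⟩
  · have h1 := Module.card_eq_pow_finrank (K := F) (V := V)
    rw [Nat.card_eq_fintype_card, Nat.card_eq_fintype_card, h1, hfr]
  · simp only [mul_zero, pow_zero]
    rw [Finite.card_le_one_iff_subsingleton]
    refine ⟨fun x y => ?_⟩
    have key2 : ∀ z : {x : V // B x x = 0}, z.1 = 0 := by
      intro z
      obtain ⟨a, ha⟩ := hu z.1
      have h1 := z.2
      rw [← ha, key] at h1
      have h3 : a = 0 := by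
        rcases mul_eq_zero.1 h1 with h3 | h3
        · exact mul_self_eq_zero.1 h3
        · exact absurd h3 huu
      rw [← ha, h3, zero_smul]
    exact Subtype.ext ((key2 x).trans (key2 y).symm)
  · simp only [zero_mul, pow_zero, mul_one]
    have h1 : Nat.card {T : V →ₗ[F] V // ∀ x y, B (T x) (T y) = B x y} ≤ Nat.card Bool := by
      refine Nat.card_le_card_of_injective (fun T => decide (T.1 u = u)) ?_
      intro T T' h
      have key3 : ∀ S : {T : V →ₗ[F] V // ∀ x y, B (T x) (T y) = B x y}, S.1 u = u ∨ S.1 u = -u := by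
        intro S
        obtain ⟨a, ha⟩ := hu (S.1 u)
        have h3 := S.2 u u
        rw [← ha, key] at h3
        have h4 : a * a = 1 := by
          have h5 : (a * a - 1) * B u u = 0 := by linear_combination h3
          rcases mul_eq_zero.1 h5 with h6 | h6
          · linear_combination h6
          · exact absurd h6 huu
        rcases mul_self_eq_one_iff.1 h4 with h5 | h5
        · left
          rw [← ha, h5, one_smul]
        · right
          rw [← ha, h5, neg_smul, one_smul]
      have hne : -u ≠ u := by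
        intro h5
        apply hu0
        have h6 : (2 : F) • u = 0 := by
          rw [two_smul]
          nth_rewrite 1 [← h5]
          exact neg_add_cancel u
        exact (smul_eq_zero.1 h6).resolve_left h2
      have h5 : T.1 u = T'.1 u := by
        simp only [decide_eq_decide] at h
        rcases key3 T with h6 | h6 <;> rcases key3 T' with h7 | h7
        · rw [h6, h7]
        · exact absurd (h.1 h6) (by rw [h7]; exact hne)
        · exact absurd (h.2 h7) (by rw [h6]; exact hne)
        · rw [h6, h7]
      apply Subtype.ext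
      apply LinearMap.ext
      intro x
      obtain ⟨c, rfl⟩ := hu x
      rw [map_smul, map_smul, h5]
    refine h1.trans ?_
    simp

theorem gen [Finite F] (h2 : (2 : F) ≠ 0) : ∀ (g : ℕ) (V : Type) [AddCommGroup V] [Module F V]
    (B : V →ₗ[F] V →ₗ[F] F), (∀ x y, B x y = B y x) → (∀ x, (∀ y, B x y = 0) → x = 0) →
    Module.finrank F V = 2 * g + 1 → QP B g := by
  intro g
  induction g with
  | zero =>
    intro V _ _ B hs hnd hfr
    exact base h2 V B hnd hfr
  | succ g ih =>
    intro V _ _ B hs hnd hfr
    haveI : FiniteDimensional F V := FiniteDimensional.of_finrank_pos (by omega)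
    obtain ⟨e, he0, he⟩ := iso_vec h2 B hs (by omega)
    obtain ⟨y, hy⟩ : ∃ y, B e y ≠ 0 := by
      by_contra hcon
      push Not at hcon
      exact he0 (hnd e hcon)
    obtain ⟨y', hy'⟩ : ∃ y', B e y' = 1 := ⟨(B e y)⁻¹ • y, by
      rw [map_smul, smul_eq_mul, inv_mul_cancel₀ hy]⟩
    obtain ⟨f, hef, hf⟩ : ∃ f, B e f = 1 ∧ B f f = 0 := by
      refine ⟨y' - (B y' y' / 2) • e, ?_, ?_⟩
      · rw [map_sub, map_smul, he, smul_zero, sub_zero, hy']
      · have hye : B y' e = 1 := by rw [hs]; exact hy'
        simp only [map_sub, map_smul, LinearMap.sub_apply, LinearMap.smul_apply, smul_eq_mul, he, hy',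
          hye, mul_zero, mul_one, sub_zero]
        field_simp
        ring
    have hfe : B f e = 1 := by rw [hs]; exact hef
    let W : Submodule F V := LinearMap.ker (B e) ⊓ LinearMap.ker (B f)
    have hWe : ∀ w : W, B e w = 0 := fun w => LinearMap.mem_ker.1 w.2.1
    have hWf : ∀ w : W, B f w = 0 := fun w => LinearMap.mem_ker.1 w.2.2
    let BW : W →ₗ[F] W →ₗ[F] F := B.domRestrict₁₂ W W
    have hBW : ∀ w w' : W, BW w w' = B w w' := fun w w' => rfl
    have hsp : ∀ v : V, ∃ (a b : F) (w : W), v = a • e + b • f + W.subtype w := by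
      intro v
      refine ⟨B f v, B e v, ⟨v - B f v • e - B e v • f, ?_, ?_⟩, ?_⟩
      · show _ ∈ LinearMap.ker (B e)
        rw [LinearMap.mem_ker]
        simp only [map_sub, map_smul, smul_eq_mul, he, hef, mul_zero, mul_one, sub_zero, sub_self]
      · show _ ∈ LinearMap.ker (B f)
        rw [LinearMap.mem_ker]
        simp only [map_sub, map_smul, smul_eq_mul, hf, hfe, mul_zero, mul_one, sub_zero, sub_self]
      · show v = B f v • e + B e v • f + (v - B f v • e - B e v • f)
        abel
    have hrk : Module.finrank F W = 2 * g + 1 := by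
      have h3 := LinearMap.finrank_range_add_finrank_ker ((B e).prod (B f))
      have h4 : LinearMap.range ((B e).prod (B f)) = ⊤ := by
        rw [LinearMap.range_eq_top]
        rintro ⟨a, b⟩
        refine ⟨a • f + b • e, ?_⟩
        simp [he, hf, hef, hfe]
      rw [h4, finrank_top, Module.finrank_prod, Module.finrank_self, LinearMap.ker_prod, hfr] at h3
      show Module.finrank F (LinearMap.ker (B e) ⊓ LinearMap.ker (B f) : Submodule F V) = _
      omega
    refine step h2 B BW g (ih W BW ?_ ?_ hrk) hs e f W.subtype he hf hef (fun w w' => rfl)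
      (fun w => hWe w) (fun w => hWf w) hsp
    · intro x y
      rw [hBW, hBW, hs]
    · intro x hx
      apply Subtype.ext
      apply hnd
      intro v
      obtain ⟨a, b, w, rfl⟩ := hsp v
      have h5 : B (x : V) e = 0 := by rw [hs]; exact hWe x
      have h6 : B (x : V) f = 0 := by rw [hs]; exact hWf x
      have h7 : B (x : V) (W.subtype w) = 0 := hx w
      simp only [map_add, map_smul, h5, h6, smul_zero, add_zero]
      simpa using h7

theorem onA [Finite F] (h2 : (2 : F) ≠ 0) {g : ℕ} {A : Mt g F} (hA : A.IsSymm) (hu : A.det ≠ 0) :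
    Nat.card {M : Mt g F // Mᵀ * A * M = A} ≤ 2 * Nat.card F ^ (g * (2 * g + 1)) := by
  have hsy : ∀ x y : Fin (2 * g + 1) → F, x ⬝ᵥ (A *ᵥ y) = y ⬝ᵥ (A *ᵥ x) := by
    intro x y
    rw [Matrix.dotProduct_mulVec, dotProduct_comm]
    congr 1
    rw [← Matrix.mulVec_transpose, hA.eq]
  have hQ : QP (Matrix.toLinearMap₂' F A) g := by
    refine gen h2 g _ _ ?_ ?_ (by simp)
    · intro x y
      rw [Matrix.toLinearMap₂'_apply', Matrix.toLinearMap₂'_apply', hsy]
    · intro x hx
      have h1 : A *ᵥ x = 0 := by
        ext i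
        have h3 := hx (Pi.single i 1)
        rw [Matrix.toLinearMap₂'_apply', hsy, single_dotProduct, one_mul] at h3
        exact h3
      exact Matrix.eq_zero_of_mulVec_eq_zero hu h1
  refine le_trans ?_ hQ.grp
  haveI : Finite ((Fin (2 * g + 1) → F) →ₗ[F] (Fin (2 * g + 1) → F)) := DFunLike.finite _
  have key : ∀ M : Mt g F, Mᵀ * A * M = A →
      ∀ x y, Matrix.toLinearMap₂' F A (Matrix.toLin' M x) (Matrix.toLin' M y) =
        Matrix.toLinearMap₂' F A x y := by
    intro M hM x y
    simp only [Matrix.toLinearMap₂'_apply', Matrix.toLin'_apply]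
    conv_rhs => rw [← hM]
    rw [Matrix.mul_assoc, ← Matrix.mulVec_mulVec, ← Matrix.mulVec_mulVec, Matrix.dotProduct_mulVec x Mᵀ,
      Matrix.vecMul_transpose]
  refine Nat.card_le_card_of_injective
    (fun M => ⟨Matrix.toLin' M.1, key M.1 M.2⟩) ?_
  intro M M' h
  simp only [Subtype.mk.injEq] at h
  exact Subtype.ext (Matrix.toLin'.injective h)

end Pool.Agent.Run7.h13.SR.CQC
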