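import Pool.Agent.Run7.h245.SR.Iface1
import Pool.Agent.N42.PF.CQ
import Pool.Agent.Run7.h13.SR.Orth

/-!
# Project SR (helper245), piece CQC (helper13): all symmetric matrices over a finite field with
characteristic polynomial `x h(x)` (after `N42/PF/CQ.lean` of helper42 and `N87/PJ/CQ.lean` of helper87)
-/

set_option autoImplicit false
set_option linter.all false

open Polynomial Matrix

namespace Pool.Agent.Run7.h13.SR

namespace CQC

open Pool.Agent.N352.PJ (Mt Jm)
open Pool.Agent.N783.PQ (chp form Dist)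
open Pool.Agent.N42.PF (Lp Lp_apply sa_pow' sa_poly' Lp_move sq_of_norm det_Jm)
open Pool.Agent.N87.PJ (J_mul_apply)

variable {g : ℕ} {F : Type} [Field F]

/-! ### The matrix of a vector -/

lemma sa {A B : Mt g F} (hA : A.IsSymm) (hu : IsUnit A.det) (hB : B.IsSymm) :
    (A⁻¹ * B)ᵀ * A = A * (A⁻¹ * B) := by
  have hAT : A * (A⁻¹ * B) = B := by
    rw [← Matrix.mul_assoc, Matrix.mul_nonsing_inv _ hu, Matrix.one_mul]
  have h1 := congrArg Matrix.transpose hAT
  rw [Matrix.transpose_mul, hA.eq, hB.eq] at h1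
  rw [h1, hAT]

/-- the matrix with columns `T ^ j ξ` -/
def MM (T : Mt g F) (ξ : Fin (2 * g + 1) → F) : Mt g F :=
  Matrix.of fun i j => ((T ^ (j : ℕ)) *ᵥ ξ) i

lemma MM_gram {A T : Mt g F} (hTA : Tᵀ * A = A * T) (ξ : Fin (2 * g + 1) → F) (k : ℕ)
    (i j : Fin (2 * g + 1)) :
    ((MM T ξ)ᵀ * (A * T ^ k) * MM T ξ) i j = ξ ⬝ᵥ ((A * T ^ ((i : ℕ) + k + j)) *ᵥ ξ) := by
  rw [Matrix.mul_mul_apply]
  have h1 : (MM T ξ)ᵀ i = T ^ (i : ℕ) *ᵥ ξ := rfl
  have h3 : (MM T ξ)ᵀ j = T ^ (j : ℕ) *ᵥ ξ := rfl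
  have h5 : (T ^ (i : ℕ))ᵀ * (A * T ^ k) * T ^ (j : ℕ) = A * T ^ ((i : ℕ) + k + j) := by
    rw [← Matrix.mul_assoc, sa_pow' hTA, Matrix.mul_assoc, Matrix.mul_assoc, ← pow_add, ← pow_add,
      ← add_assoc]
  rw [h1, h3, ← Matrix.vecMul_transpose, ← Matrix.dotProduct_mulVec, Matrix.mulVec_mulVec,
    Matrix.mulVec_mulVec, h5]

lemma kill {T : Mt g F} {ξ : Fin (2 * g + 1) → F} (hu : IsUnit (MM T ξ).det) {p : F[X]}
    (h : aeval T p *ᵥ ξ = 0) : aeval T p = 0 := by
  have h1 : aeval T p * MM T ξ = 0 := by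
    ext i j
    have h3 : (aeval T p * MM T ξ) i j = (aeval T p *ᵥ ((T ^ (j : ℕ)) *ᵥ ξ)) i := rfl
    have h4 : aeval T p * T ^ (j : ℕ) = T ^ (j : ℕ) * aeval T p := by
      have h5 : T ^ (j : ℕ) = aeval T (X ^ (j : ℕ) : F[X]) := by rw [map_pow, aeval_X]
      rw [h5, ← map_mul, ← map_mul, mul_comm p (X ^ (j : ℕ))]
    rw [h3, Matrix.mulVec_mulVec, h4, ← Matrix.mulVec_mulVec, h, Matrix.mulVec_zero]
    rfl
  have h3 := congrArg (· * (MM T ξ)⁻¹) h1
  simp only [Matrix.mul_assoc, Matrix.mul_nonsing_inv _ hu, Matrix.mul_one, Matrix.zero_mul] at h3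
  exact h3

/-! ### The idempotents -/

section idem

variable {T : Mt g F} {h u v : F[X]}

lemma annih (hc : T.charpoly = X * h) : aeval T (X * h) = 0 := by
  rw [← hc]
  exact Matrix.aeval_self_charpoly T

lemma ne1 (hc : T.charpoly = X * h) (huv : u * X + v * h = 1) : aeval T (v * h) ≠ 0 := by
  intro h0
  have h1 : aeval T (u * X + v * h) = 1 := by rw [huv, map_one]
  rw [map_add, h0, add_zero, map_mul, aeval_X] at h1
  have h3 := congrArg Matrix.det h1
  rw [Matrix.det_mul, Matrix.det_one, Matrix.det_eq_sign_charpoly_coeff T, hc] at h3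
  simp at h3

lemma ne2 (hc : T.charpoly = X * h) (hg : 1 ≤ g) (huv : u * X + v * h = 1) :
    aeval T (u * X) ≠ 0 := by
  intro h0
  have h1 : aeval T (u * X + v * h) = 1 := by rw [huv, map_one]
  rw [map_add, h0, zero_add] at h1
  have h3 : T = 0 := by
    calc T = aeval T (X : F[X]) * aeval T (v * h) := by rw [h1, mul_one, aeval_X]
      _ = aeval T v * aeval T (X * h) := by
          rw [← map_mul, ← map_mul]
          congr 1
          ring
      _ = 0 := by rw [annih hc, mul_zero]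
  rw [h3, Matrix.charpoly_zero, Fintype.card_fin] at hc
  have h4 : h = X ^ (2 * g) := by
    apply mul_left_cancel₀ (X_ne_zero (R := F))
    rw [← hc, pow_succ']
  have h5 : (X : F[X]) ∣ 1 := by
    rw [← huv]
    refine dvd_add (Dvd.intro_left _ rfl) (Dvd.dvd.mul_left ?_ _)
    rw [h4]
    exact dvd_pow_self _ (by omega)
  exact not_isUnit_X (isUnit_of_dvd_one h5)

end idem

/-! ### The count -/

lemma form_eq {A B : Mt g F} (m : ℕ) (ξ : Fin (2 * g + 1) → F) :
    form A B m ξ = Lp A (A⁻¹ * B) ξ (X ^ m) := by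
  rw [Lp_apply, map_pow, aeval_X]
  rfl

theorem card_class [Finite F] (h2 : (2 : F) ≠ 0) (hg : 1 ≤ g) {h u v : F[X]}
    (huv : u * X + v * h = 1) {A : Mt g F} (hA : A.IsSymm) (hu : A.det ≠ 0) (s : ℕ → F)
    (hs : (Matrix.of fun i j : Fin (2 * g + 1) => s ((i : ℕ) + j)).det ≠ 0) :
    2 * Nat.card {B : Mt g F // B.IsSymm ∧ chp A B = X * h ∧
      ∃ ξ : Fin (2 * g + 1) → F, ∀ m, form A B m ξ = s m} ≤ Nat.card F ^ (g * (2 * g + 1)) := by
  classical
  have hA' : IsUnit A.det := isUnit_iff_ne_zero.2 hu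
  let P : Type := {p : Mt g F × (Fin (2 * g + 1) → F) // p.1.IsSymm ∧ chp A p.1 = X * h ∧
    ∀ m, form A p.1 m p.2 = s m}
  let D : Type := {B : Mt g F // B.IsSymm ∧ chp A B = X * h ∧
      ∃ ξ : Fin (2 * g + 1) → F, ∀ m, form A B m ξ = s m}
  let O : Type := {M : Mt g F // Mᵀ * A * M = A}
  haveI : Finite (Mt g F) := inferInstance
  -- the Gram matrices
  have hG0 : ∀ p : P, (MM (A⁻¹ * p.1.1) p.1.2)ᵀ * A * MM (A⁻¹ * p.1.1) p.1.2 =
      Matrix.of fun i j : Fin (2 * g + 1) => s ((i : ℕ) + j) := by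
    intro p
    ext i j
    have h1 := MM_gram (sa hA hA' p.2.1) p.1.2 0 i j
    rw [pow_zero, Matrix.mul_one, add_zero] at h1
    rw [h1, Matrix.of_apply, ← p.2.2.2]
    rfl
  have hG1 : ∀ p : P, (MM (A⁻¹ * p.1.1) p.1.2)ᵀ * p.1.1 * MM (A⁻¹ * p.1.1) p.1.2 =
      Matrix.of fun i j : Fin (2 * g + 1) => s ((i : ℕ) + 1 + j) := by
    intro p
    ext i j
    have h1 := MM_gram (sa hA hA' p.2.1) p.1.2 1 i j
    have h9 : A * (A⁻¹ * p.1.1) = p.1.1 := by
      rw [← Matrix.mul_assoc, Matrix.mul_nonsing_inv _ hA', Matrix.one_mul]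
    rw [pow_one, h9] at h1
    rw [h1, Matrix.of_apply, ← p.2.2.2]
    rfl
  have hMu : ∀ p : P, IsUnit (MM (A⁻¹ * p.1.1) p.1.2).det := by
    intro p
    rw [isUnit_iff_ne_zero]
    intro h0
    apply hs
    rw [← hG0 p, Matrix.det_mul, h0, mul_zero]
  have hinj : ∀ p p' : P, MM (A⁻¹ * p.1.1) p.1.2 = MM (A⁻¹ * p'.1.1) p'.1.2 → p = p' := by
    intro p p' hpp
    have h1 := hG1 p
    rw [← hG1 p', ← hpp] at h1
    have hup := hMu p
    have hut : IsUnit ((MM (A⁻¹ * p.1.1) p.1.2)ᵀ).det := by rwa [Matrix.det_transpose]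
    have h3 := congrArg (fun Z => ((MM (A⁻¹ * p.1.1) p.1.2)ᵀ)⁻¹ * Z * (MM (A⁻¹ * p.1.1) p.1.2)⁻¹) h1
    simp only [Matrix.mul_assoc, Matrix.mul_nonsing_inv _ hup, Matrix.mul_one] at h3
    simp only [← Matrix.mul_assoc, Matrix.nonsing_inv_mul _ hut, Matrix.one_mul] at h3
    have h4 : p.1.2 = p'.1.2 := by
      ext i
      have h5 := congrFun (congrFun hpp i) 0
      simpa [MM] using h5
    exact Subtype.ext (Prod.ext h3 h4)
  have hPO : Nat.card P ≤ Nat.card O := by
    rcases isEmpty_or_nonempty P with hP | hP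
    · rw [Nat.card_of_isEmpty]
      exact Nat.zero_le _
    · have p₀ : P := Classical.choice hP
      obtain ⟨M₀, hM₀⟩ : ∃ M₀, M₀ = MM (A⁻¹ * p₀.1.1) p₀.1.2 := ⟨_, rfl⟩
      have hu₀ := hMu p₀
      rw [← hM₀] at hu₀
      have hH : ∀ p : P, (MM (A⁻¹ * p.1.1) p.1.2)ᵀ * A * MM (A⁻¹ * p.1.1) p.1.2 =
          M₀ᵀ * A * M₀ := by
        intro p
        rw [hG0, hM₀, hG0]
      let f' : P → O := fun p => ⟨MM (A⁻¹ * p.1.1) p.1.2 * M₀⁻¹, by
        rw [Matrix.transpose_mul]
        calc (M₀⁻¹)ᵀ * (MM (A⁻¹ * p.1.1) p.1.2)ᵀ * A * (MM (A⁻¹ * p.1.1) p.1.2 * M₀⁻¹) =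
            (M₀⁻¹)ᵀ * ((MM (A⁻¹ * p.1.1) p.1.2)ᵀ * A * MM (A⁻¹ * p.1.1) p.1.2) * M₀⁻¹ := by
              simp only [Matrix.mul_assoc]
          _ = (M₀⁻¹)ᵀ * (M₀ᵀ * A * M₀) * M₀⁻¹ := by rw [hH p]
          _ = ((M₀⁻¹)ᵀ * M₀ᵀ) * A * (M₀ * M₀⁻¹) := by simp only [Matrix.mul_assoc]
          _ = A := by
              rw [Matrix.mul_nonsing_inv _ hu₀, ← Matrix.transpose_mul,
                Matrix.mul_nonsing_inv _ hu₀, Matrix.transpose_one, Matrix.one_mul,
                Matrix.mul_one]⟩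
      refine Nat.card_le_card_of_injective f' ?_
      intro p p' hpp
      have h3 : MM (A⁻¹ * p.1.1) p.1.2 * M₀⁻¹ = MM (A⁻¹ * p'.1.1) p'.1.2 * M₀⁻¹ :=
        congrArg Subtype.val hpp
      apply hinj
      have h5 := congrArg (· * M₀) h3
      simp only [Matrix.mul_assoc, Matrix.nonsing_inv_mul _ hu₀, Matrix.mul_one] at h5
      exact h5
  have hDP : Nat.card (D × (Bool × Bool)) ≤ Nat.card P := by
    have hch : ∀ B : D, ∃ ξ : Fin (2 * g + 1) → F, ∀ m, form A B.1 m ξ = s m := fun B => B.2.2.2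
    choose ξ hξ using hch
    let e : F[X] := v * h - u * X
    let η : D → (Fin (2 * g + 1) → F) := fun B => aeval (A⁻¹ * B.1) e *ᵥ ξ B
    have hMB : ∀ B : D, IsUnit (MM (A⁻¹ * B.1) (ξ B)).det := fun B =>
      hMu ⟨(B.1, ξ B), B.2.1, B.2.2.1, hξ B⟩
    have hη1 : ∀ B : D, ∀ m, form A B.1 m (η B) = s m := by
      intro B m
      rw [← hξ B m]
      have h3 : form A B.1 m (η B) = Lp A (A⁻¹ * B.1) (ξ B) (e * X ^ m * e) := by
        rw [← Lp_move (ξ B) (sa hA hA' B.2.1), map_pow, aeval_X]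
        rfl
      have hee : aeval (A⁻¹ * B.1) (e * e) = 1 := by
        have h5 : e * e = 1 - 4 * (u * v) * (X * h) := by
          have : e * e = (u * X + v * h) ^ 2 - 4 * (u * v) * (X * h) := by
            show (v * h - u * X) * (v * h - u * X) = _
            ring
          rw [this, huv]; ring
        rw [h5, map_sub, map_mul, annih B.2.2.1, mul_zero, sub_zero, map_one]
      rw [h3, form_eq, Lp_apply, Lp_apply]
      have h6 : e * X ^ m * e = X ^ m * (e * e) := by ring
      rw [h6, map_mul, hee, mul_one]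
    have hη2 : ∀ B : D, η B ≠ ξ B := by
      intro B h3
      have e1 : e = 1 - 2 * (u * X) := by
        show v * h - u * X = _
        rw [← huv]; ring
      have h4 : aeval (A⁻¹ * B.1) (u * X) *ᵥ ξ B = 0 := by
        have h3' : aeval (A⁻¹ * B.1) e *ᵥ ξ B = ξ B := h3
        rw [e1, map_sub, map_one, Matrix.sub_mulVec, Matrix.one_mulVec, sub_eq_self, map_mul] at h3'
        have h5 : aeval (A⁻¹ * B.1) (2 : F[X]) = (2 : F) • (1 : Mt g F) := by
          rw [← C_ofNat, aeval_C, Algebra.algebraMap_eq_smul_one]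
        rw [h5, Matrix.smul_mul, Matrix.one_mul, Matrix.smul_mulVec] at h3'
        exact (smul_eq_zero.1 h3').resolve_left h2
      exact ne2 B.2.2.1 hg huv (kill (hMB B) h4)
    have hη3 : ∀ B : D, η B ≠ -ξ B := by
      intro B h3
      have e1 : e = 2 * (v * h) - 1 := by
        show v * h - u * X = _
        rw [← huv]; ring
      have h4 : aeval (A⁻¹ * B.1) (v * h) *ᵥ ξ B = 0 := by
        have h3' : aeval (A⁻¹ * B.1) e *ᵥ ξ B = -ξ B := h3
        rw [e1, map_sub, map_one, Matrix.sub_mulVec, Matrix.one_mulVec, sub_eq_neg_self,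
          map_mul] at h3'
        have h5 : aeval (A⁻¹ * B.1) (2 : F[X]) = (2 : F) • (1 : Mt g F) := by
          rw [← C_ofNat, aeval_C, Algebra.algebraMap_eq_smul_one]
        rw [h5, Matrix.smul_mul, Matrix.one_mul, Matrix.smul_mulVec] at h3'
        exact (smul_eq_zero.1 h3').resolve_left h2
      exact ne1 B.2.2.1 huv (kill (hMB B) h4)
    have hneg : ∀ (B : Mt g F) (ξ : Fin (2 * g + 1) → F) (m : ℕ),
        form A B m (-ξ) = form A B m ξ := by
      intro B ξ m
      unfold form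
      rw [Matrix.mulVec_neg, neg_dotProduct_neg]
    have hξ0 : ∀ B : D, ξ B ≠ 0 := by
      intro B h0
      apply ne1 B.2.2.1 huv (kill (hMB B) (p := v * h) ?_)
      rw [h0, Matrix.mulVec_zero]
    have hη0 : ∀ B : D, η B ≠ 0 := by
      intro B h0
      apply hs
      have h3 := hG0 ⟨(B.1, η B), B.2.1, B.2.2.1, hη1 B⟩
      rw [← h3]
      simp only
      have h4 : MM (A⁻¹ * B.1) (η B) = 0 := by
        ext i j
        show ((A⁻¹ * B.1) ^ (j : ℕ) *ᵥ η B) i = 0
        rw [h0, Matrix.mulVec_zero]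
        rfl
      rw [h4, Matrix.mul_zero]
      exact Matrix.det_zero
    let v' : D → Bool × Bool → (Fin (2 * g + 1) → F) := fun B st =>
      match st with
      | (false, false) => ξ B
      | (false, true) => η B
      | (true, false) => -ξ B
      | (true, true) => -η B
    have hv : ∀ B st m, form A B.1 m (v' B st) = s m := by
      rintro B ⟨_ | _, _ | _⟩ m
      · exact hξ B m
      · exact hη1 B m
      · exact (hneg _ _ _).trans (hξ B m)
      · exact (hneg _ _ _).trans (hη1 B m)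
    have hn0 : ∀ x : Fin (2 * g + 1) → F, x ≠ 0 → x ≠ -x := by
      intro x hx h3
      have h4 : (2 : F) • x = 0 := by
        rw [two_smul]
        nth_rewrite 2 [h3]
        exact add_neg_cancel _
      exact hx ((smul_eq_zero.1 h4).resolve_left h2)
    have hvi : ∀ B, Function.Injective (v' B) := by
      intro B
      have n1 : ξ B ≠ -ξ B := hn0 _ (hξ0 B)
      have n2 : η B ≠ -η B := hn0 _ (hη0 B)
      have n3 := hη2 B
      have n4 := hη3 B
      have n5 : ξ B ≠ -η B := fun h3 => n4 (by rw [h3, neg_neg])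
      have n6 : -ξ B ≠ -η B := fun h3 => n3 (neg_injective h3).symm
      rintro ⟨_ | _, _ | _⟩ ⟨_ | _, _ | _⟩ hst
      · rfl
      · exact absurd hst.symm n3
      · exact absurd hst n1
      · exact absurd hst n5
      · exact absurd hst n3
      · rfl
      · exact absurd hst n4
      · exact absurd hst n2
      · exact absurd hst.symm n1
      · exact absurd hst.symm n4
      · rfl
      · exact absurd hst n6
      · exact absurd hst.symm n5
      · exact absurd hst.symm n2
      · exact absurd hst.symm n6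
      · rfl
    let f : D × (Bool × Bool) → P := fun q =>
      ⟨(q.1.1, v' q.1 q.2), q.1.2.1, q.1.2.2.1, hv q.1 q.2⟩
    refine Nat.card_le_card_of_injective f ?_
    rintro ⟨B, st⟩ ⟨B', st'⟩ hq
    have h3 : (B.1, v' B st) = (B'.1, v' B' st') := congrArg Subtype.val hq
    have h4 : B = B' := Subtype.ext (congrArg Prod.fst h3)
    subst h4
    have h5 : v' B st = v' B st' := congrArg Prod.snd h3
    rw [hvi B h5]
  rw [Nat.card_prod, Nat.card_prod] at hDP
  have h3 : Nat.card Bool = 2 := by simp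
  rw [h3] at hDP
  have h4 := onA h2 hA hu
  have h5 : Nat.card D * (2 * 2) ≤ 2 * Nat.card F ^ (g * (2 * g + 1)) := hDP.trans (hPO.trans h4)
  show 2 * Nat.card D ≤ _
  omega

/-! ### The functional on `F[x] / (f)` -/

section top

variable {f : F[X]}

/-- the coefficient of `x ^ (2 g)` -/
noncomputable def tp (g : ℕ) (hm : f.Monic) : AdjoinRoot f →ₗ[F] F :=
  (Polynomial.lcoeff F (2 * g)).comp (AdjoinRoot.modByMonicHom hm)

lemma tp_mk (hm : f.Monic) (hd : f.natDegree = 2 * g + 1) {p : F[X]} (hp : p.natDegree < 2 * g + 1) :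
    tp g hm (AdjoinRoot.mk f p) = p.coeff (2 * g) := by
  show (AdjoinRoot.modByMonicHom hm (AdjoinRoot.mk f p)).coeff (2 * g) = _
  rw [AdjoinRoot.modByMonicHom_mk, (modByMonic_eq_self_iff hm).2]
  rw [degree_eq_natDegree hm.ne_zero, hd]
  exact lt_of_le_of_lt degree_le_natDegree (by exact_mod_cast hp)

lemma tp_pow (hm : f.Monic) (hd : f.natDegree = 2 * g + 1) {m : ℕ} (hm' : m ≤ 2 * g) :
    tp g hm (AdjoinRoot.root f ^ m) = if m = 2 * g then 1 else 0 := by
  have e1 : AdjoinRoot.root f ^ m = AdjoinRoot.mk f (X ^ m) := by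
    rw [map_pow, AdjoinRoot.mk_X]
  rw [e1, tp_mk hm hd (by rw [natDegree_X_pow]; omega), coeff_X_pow]
  simp only [eq_comm]

lemma tp_inj (hm : f.Monic) (hd : f.natDegree = 2 * g + 1) {c : AdjoinRoot f}
    (h : ∀ e, tp g hm (c * e) = 0) : c = 0 := by
  obtain ⟨p, hp⟩ : ∃ p, p = AdjoinRoot.modByMonicHom hm c := ⟨_, rfl⟩
  have hc : AdjoinRoot.mk f p = c := by rw [hp]; exact AdjoinRoot.mk_leftInverse hm c
  have hpd : p.natDegree < 2 * g + 1 := by
    rw [← hd, hp]
    obtain ⟨q, hq⟩ := AdjoinRoot.mk_surjective (g := f) c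
    rw [← hq, AdjoinRoot.modByMonicHom_mk]
    exact natDegree_modByMonic_lt _ hm (by
      rintro rfl
      rw [natDegree_one] at hd
      omega)
  by_contra hc0
  have hp0 : p ≠ 0 := by
    rintro rfl
    apply hc0
    rw [← hc, map_zero]
  have h1 := h (AdjoinRoot.mk f (X ^ (2 * g - p.natDegree)))
  rw [← hc, ← map_mul, tp_mk hm hd] at h1
  · have e2 : 2 * g = p.natDegree + (2 * g - p.natDegree) := by omega
    conv_lhs at h1 => rw [e2]
    have e3 : p.natDegree + (2 * g - p.natDegree) - p.natDegree = 2 * g - p.natDegree := by omega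
    rw [e3, coeff_mul_X_pow] at h1
    exact hp0 (leadingCoeff_eq_zero.1 h1)
  · rw [natDegree_mul_X_pow _ hp0]
    omega

lemma tp_exists (hm : f.Monic) (hd : f.natDegree = 2 * g + 1) (ℓ : AdjoinRoot f →ₗ[F] F) :
    ∃ c, ∀ e, tp g hm (c * e) = ℓ e := by
  haveI : FiniteDimensional F (AdjoinRoot f) := (AdjoinRoot.powerBasis' hm).finite
  let Φ : AdjoinRoot f →ₗ[F] Module.Dual F (AdjoinRoot f) :=
    (LinearMap.mul F (AdjoinRoot f)).compr₂ (tp g hm)
  have hΦ : ∀ c e, Φ c e = tp g hm (c * e) := fun c e => rfl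
  have hinj : Function.Injective Φ := by
    rw [← LinearMap.ker_eq_bot, LinearMap.ker_eq_bot']
    intro c hc0
    refine tp_inj hm hd fun e => ?_
    rw [← hΦ, hc0, LinearMap.zero_apply]
  have hsurj : Function.Surjective Φ :=
    (LinearMap.injective_iff_surjective_of_finrank_eq_finrank
      (Subspace.dual_finrank_eq).symm).1 hinj
  obtain ⟨c, hcℓ⟩ := hsurj ℓ
  exact ⟨c, fun e => by rw [← hΦ, hcℓ]⟩

lemma tp_det (hm : f.Monic) (hd : f.natDegree = 2 * g + 1) (c : AdjoinRoot f) :
    (Matrix.of fun i j : Fin (2 * g + 1) =>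
      tp g hm (c * AdjoinRoot.root f ^ ((i : ℕ) + j))).det = (-1) ^ g * Algebra.norm F c := by
  let pb : PowerBasis F (AdjoinRoot f) := AdjoinRoot.powerBasis' hm
  haveI : FiniteDimensional F (AdjoinRoot f) := pb.finite
  have hdim : pb.dim = 2 * g + 1 := hd
  let b : Module.Basis (Fin (2 * g + 1)) F (AdjoinRoot f) := pb.basis.reindex (finCongr hdim)
  have hb : ∀ i, b i = AdjoinRoot.root f ^ (i : ℕ) := by
    intro i
    show (pb.basis.reindex (finCongr hdim)) i = _
    rw [Module.Basis.reindex_apply, pb.basis_eq_pow]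
    rfl
  let Gm : AdjoinRoot f → Mt g F := fun c => Matrix.of fun i j => tp g hm (c * (b i * b j))
  have hGm : (Matrix.of fun i j : Fin (2 * g + 1) =>
      tp g hm (c * AdjoinRoot.root f ^ ((i : ℕ) + j))) = Gm c := by
    ext i j
    show _ = tp g hm (c * (b i * b j))
    rw [hb, hb, ← pow_add]
    rfl
  have hG : Gm c = Gm 1 * Algebra.leftMulMatrix b c := by
    ext i j
    rw [Matrix.mul_apply]
    simp only [Gm, Matrix.of_apply, Algebra.leftMulMatrix_eq_repr_mul, one_mul]
    have h3 : c * b j = ∑ k, b.repr (c * b j) k • b k := (b.sum_repr _).symm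
    have h4 : c * (b i * b j) = b i * (c * b j) := by ring
    rw [h4]
    conv_lhs => rw [h3]
    rw [Finset.mul_sum, map_sum]
    refine Finset.sum_congr rfl fun k _ => ?_
    rw [mul_smul_comm, map_smul, smul_eq_mul, mul_comm]
  have hone : ((-1 : F) ^ g) * (-1) ^ g = 1 := by rw [← mul_pow]; simp
  have hdetG : (Gm 1).det = (-1) ^ g := by
    have h3 : (Jm g F * Gm 1).det = 1 := by
      have h4 : ∀ i j, (Jm g F * Gm 1) i j =
          tp g hm (AdjoinRoot.root f ^ (((Fin.rev i : Fin (2 * g + 1)) : ℕ) + (j : ℕ))) := by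
        intro i j
        rw [J_mul_apply]
        show tp g hm (1 * (b (Fin.rev i) * b j)) = _
        rw [hb, hb, one_mul, ← pow_add]
      have h5 : (Jm g F * Gm 1).BlockTriangular id := by
        intro i j hij
        have hij' : j < i := hij
        have h6 : (j : ℕ) < i := hij'
        have h7 := i.2
        rw [h4, tp_pow hm hd (by rw [Fin.val_rev]; omega), if_neg (by rw [Fin.val_rev]; omega)]
      rw [Matrix.det_of_upperTriangular h5]
      refine Finset.prod_eq_one fun i _ => ?_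
      have h7 := i.2
      rw [h4, tp_pow hm hd (by rw [Fin.val_rev]; omega), if_pos (by rw [Fin.val_rev]; omega)]
    rw [Matrix.det_mul, det_Jm] at h3
    calc (Gm 1).det = ((-1) ^ g * (-1) ^ g) * (Gm 1).det := by rw [hone, one_mul]
      _ = (-1) ^ g * ((-1) ^ g * (Gm 1).det) := by ring
      _ = (-1) ^ g := by rw [h3, mul_one]
  rw [hGm, hG, Matrix.det_mul, hdetG, Algebra.norm_eq_matrix_det b c]

end top

/-- a nonzero symmetric matrix has an anisotropic vector -/
lemma aniso (h2 : (2 : F) ≠ 0) {S : Mt g F} (hS : S.IsSymm) (h0 : S ≠ 0) :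
    ∃ v : Fin (2 * g + 1) → F, v ⬝ᵥ (S *ᵥ v) ≠ 0 := by
  by_contra hcon
  push Not at hcon
  apply h0
  have h1 : ∀ i, S i i = 0 := by
    intro i
    have := hcon (Pi.single i 1)
    simpa using this
  ext i j
  have h4 := hcon (Pi.single i 1 + Pi.single j 1)
  rw [Matrix.mulVec_add, add_dotProduct, dotProduct_add, dotProduct_add] at h4
  simp only [Matrix.mulVec_single_one, single_dotProduct, Matrix.col_apply, one_mul] at h4
  rw [h1 i, h1 j, hS.apply i j] at h4
  have h5 : (2 : F) * S i j = 0 := by rw [two_mul]; simpa using h4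
  simpa using (mul_eq_zero.1 h5).resolve_left h2

/-- the norm in a product -/
lemma norm_pr {K : Type} [Field K] [Algebra F K] [FiniteDimensional F K] (a : F) (b : K) :
    Algebra.norm F ((a, b) : F × K) = a * Algebra.norm F b := by
  rw [Algebra.norm_apply]
  have h1 : Algebra.lmul F (F × K) (a, b) = (Algebra.lmul F F a).prodMap (Algebra.lmul F K b) := by
    apply LinearMap.ext
    rintro ⟨c, d⟩
    simp
  rw [h1, LinearMap.det_prodMap, ← Algebra.norm_apply, ← Algebra.norm_apply, Algebra.norm_self]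
  rfl

/-- products and quotients of nonsquares -/
lemma nonsq {K : Type} [Field K] [Finite K] {a b : K} (ha : ¬ IsSquare a)
    (hb : ¬ IsSquare b) : ∃ s : K, a = b * (s * s) := by
  classical
  haveI := Fintype.ofFinite K
  have hb0 : b ≠ 0 := by
    rintro rfl
    exact hb (IsSquare.zero)
  have ha0 : a ≠ 0 := by
    rintro rfl
    exact ha (IsSquare.zero)
  have h1 : quadraticChar K a = -1 := quadraticChar_neg_one_iff_not_isSquare.2 ha
  have h3 : quadraticChar K b = -1 := quadraticChar_neg_one_iff_not_isSquare.2 hb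
  have h4 : quadraticChar K (a * b) = 1 := by rw [map_mul, h1, h3]; norm_num
  rw [quadraticChar_one_iff_isSquare (mul_ne_zero ha0 hb0)] at h4
  obtain ⟨t, ht⟩ := h4
  refine ⟨t / b, ?_⟩
  field_simp
  linear_combination ht

/-! ### The product decomposition -/

section crt

variable {h u v : F[X]} [Fact (Irreducible h)]

/-- evaluation at `(0, root)` -/
lemma ev_apply (p : F[X]) : aeval ((0, AdjoinRoot.root h) : F × AdjoinRoot h) p =
    (p.eval 0, AdjoinRoot.mk h p) := by
  induction p using Polynomial.induction_on' with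
  | add p q hp hq => rw [map_add, hp, hq, Prod.mk_add_mk, eval_add, map_add]
  | monomial m c =>
    rw [aeval_monomial, ← C_mul_X_pow_eq_monomial]
    ext
    · simp
    · simp [AdjoinRoot.algebraMap_eq]

/-- the homomorphism -/
noncomputable def ps0 (h : F[X]) [Fact (Irreducible h)] :
    AdjoinRoot (X * h) →ₐ[F] F × AdjoinRoot h :=
  AdjoinRoot.liftAlgHom (X * h) (Algebra.ofId F _) ((0, AdjoinRoot.root h) : F × AdjoinRoot h) (by
    have h1 := ev_apply (h := h) (X * h)
    rw [aeval_def] at h1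
    refine h1.trans ?_
    rw [eval_mul, eval_X, zero_mul, map_mul, AdjoinRoot.mk_self, mul_zero]
    rfl)

lemma ps0_mk (p : F[X]) : ps0 h (AdjoinRoot.mk (X * h) p) = (p.eval 0, AdjoinRoot.mk h p) := by
  rw [← ev_apply]
  rfl

lemma ps0_bij (hm : h.Monic) (huv : u * X + v * h = 1) : Function.Bijective (ps0 h) := by
  have hfm : (X * h).Monic := monic_X.mul hm
  haveI : FiniteDimensional F (AdjoinRoot (X * h)) := (AdjoinRoot.powerBasis' hfm).finite
  haveI : FiniteDimensional F (AdjoinRoot h) := (AdjoinRoot.powerBasis' hm).finite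
  have hinj : Function.Injective (ps0 h) := by
    rw [injective_iff_map_eq_zero]
    intro c hc
    obtain ⟨p, rfl⟩ := AdjoinRoot.mk_surjective c
    rw [ps0_mk] at hc
    have h1 : p.eval 0 = 0 := congrArg Prod.fst hc
    have h3 : AdjoinRoot.mk h p = 0 := congrArg Prod.snd hc
    rw [AdjoinRoot.mk_eq_zero] at h3 ⊢
    have h4 : (X : F[X]) ∣ p := by
      rw [X_dvd_iff, coeff_zero_eq_eval_zero]
      exact h1
    exact IsCoprime.mul_dvd ⟨u, v, huv⟩ h4 h3
  have hfr : Module.finrank F (AdjoinRoot (X * h)) = Module.finrank F (F × AdjoinRoot h) := by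
    rw [Module.finrank_prod, Module.finrank_self, (AdjoinRoot.powerBasis' hfm).finrank,
      (AdjoinRoot.powerBasis' hm).finrank, AdjoinRoot.powerBasis'_dim, AdjoinRoot.powerBasis'_dim,
      natDegree_mul X_ne_zero hm.ne_zero, natDegree_X]
  exact ⟨hinj, (LinearMap.injective_iff_surjective_of_finrank_eq_finrank
    (f := (ps0 h).toLinearMap) hfr).1 hinj⟩

end crt

/-- **piece CQC** -/
theorem main [Finite F] (hg : 1 ≤ g) (h2 : (2 : F) ≠ 0) (h : F[X]) (hm : h.Monic)
    (hi : Irreducible h) (hd : h.natDegree = 2 * g) {A : Mt g F} (hA : A.IsSymm) {x : F}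
    (hx : x ≠ 0) (hdet : A.det = (-1) ^ g * x ^ 2) :
    Nat.card {B : Mt g F // B.IsSymm ∧ chp A B = X * h} ≤ Nat.card F ^ (g * (2 * g + 1)) := by
  classical
  have hcop : IsCoprime (X : F[X]) h := by
    rw [Irreducible.coprime_iff_not_dvd Polynomial.irreducible_X]
    intro hdvd
    obtain ⟨c, hc'⟩ := hdvd
    have hX : (X : F[X]) ≠ 0 := X_ne_zero
    rcases hi.isUnit_or_isUnit hc' with h' | h'
    · exact Polynomial.not_isUnit_X h'
    · have h3 := natDegree_eq_zero_of_isUnit h'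
      have hc0 : c ≠ 0 := by
        rintro rfl
        rw [mul_zero] at hc'
        exact hi.ne_zero hc'
      rw [hc', natDegree_mul hX hc0, natDegree_X, h3] at hd
      omega
  obtain ⟨u, v, huv⟩ := hcop
  have hone : ((-1 : F) ^ g) * (-1) ^ g = 1 := by rw [← mul_pow]; simp
  have hA0 : A.det ≠ 0 := by
    rw [hdet]
    refine mul_ne_zero ?_ (pow_ne_zero 2 hx)
    intro h
    rw [h, zero_mul] at hone
    exact zero_ne_one hone
  have hu : IsUnit A.det := isUnit_iff_ne_zero.2 hA0
  haveI : Fact (Irreducible h) := ⟨hi⟩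
  have hfm : (X * h).Monic := monic_X.mul hm
  have hfd : (X * h).natDegree = 2 * g + 1 := by
    rw [natDegree_mul X_ne_zero hm.ne_zero, natDegree_X, hd]
    omega
  haveI : FiniteDimensional F (AdjoinRoot (X * h)) := (AdjoinRoot.powerBasis' hfm).finite
  haveI : FiniteDimensional F (AdjoinRoot h) := (AdjoinRoot.powerBasis' hm).finite
  haveI : Finite (AdjoinRoot h) := Module.finite_of_finite F
  let ψ : AdjoinRoot (X * h) ≃ₐ[F] F × AdjoinRoot h := AlgEquiv.ofBijective (ps0 h) (ps0_bij hm huv)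
  have hψ : ∀ c, ψ c = ps0 h c := fun c => rfl
  have hψm : ∀ p, ψ (AdjoinRoot.mk (X * h) p) = (p.eval 0, AdjoinRoot.mk h p) := fun p => ps0_mk p
  have hnorm : ∀ c : AdjoinRoot (X * h), Algebra.norm F c = (ψ c).1 * Algebra.norm F (ψ c).2 := by
    intro c
    rw [← norm_pr]
    exact (Algebra.norm_eq_of_algEquiv ψ c).symm
  -- the two nonsquares
  haveI := Fintype.ofFinite F
  haveI := Fintype.ofFinite (AdjoinRoot h)
  have hcF : ringChar F ≠ 2 := by
    intro h'
    apply h2
    have := ringChar.Nat.cast_ringChar (R := F)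
    rw [h'] at this
    exact_mod_cast this
  have h2K : (2 : AdjoinRoot h) ≠ 0 := by
    intro h'
    apply h2
    apply (algebraMap F (AdjoinRoot h)).injective
    rw [map_ofNat, map_zero, h']
  have hcK : ringChar (AdjoinRoot h) ≠ 2 := by
    intro h'
    apply h2K
    have := ringChar.Nat.cast_ringChar (R := AdjoinRoot h)
    rw [h'] at this
    exact_mod_cast this
  obtain ⟨n₁, hn₁⟩ := FiniteField.exists_nonsquare hcF
  obtain ⟨n₂, hn₂⟩ := FiniteField.exists_nonsquare hcK
  have hn₁0 : n₁ ≠ 0 := by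
    rintro rfl
    exact hn₁ IsSquare.zero
  have hn₂0 : n₂ ≠ 0 := by
    rintro rfl
    exact hn₂ IsSquare.zero
  obtain ⟨c₀, hc₀⟩ : ∃ c₀, ψ c₀ = (n₁, n₂) := ψ.surjective _
  -- the two classes
  let s : AdjoinRoot (X * h) → ℕ → F := fun c m => tp g hfm (c * AdjoinRoot.root (X * h) ^ m)
  have hcl : ∀ c, Algebra.norm F c ≠ 0 →
      2 * Nat.card {B : Mt g F // B.IsSymm ∧ chp A B = X * h ∧
        ∃ ξ : Fin (2 * g + 1) → F, ∀ m, form A B m ξ = s c m} ≤
      Nat.card F ^ (g * (2 * g + 1)) := by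
    intro c hc
    refine card_class h2 hg huv hA hA0 (s c) ?_
    show (Matrix.of fun i j : Fin (2 * g + 1) =>
      tp g hfm (c * AdjoinRoot.root (X * h) ^ ((i : ℕ) + j))).det ≠ 0
    rw [tp_det hfm hfd]
    refine mul_ne_zero ?_ hc
    intro h'
    rw [h', zero_mul] at hone
    exact zero_ne_one hone
  have hc1 := hcl 1 (by rw [map_one]; exact one_ne_zero)
  have hc2 := hcl c₀ (by
    rw [hnorm, hc₀]
    exact mul_ne_zero hn₁0 (by rwa [Ne, Algebra.norm_eq_zero_iff]))
  -- every `B` is in one of the two classes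
  have hall : ∀ B : Mt g F, B.IsSymm → chp A B = X * h →
      (∃ ξ : Fin (2 * g + 1) → F, ∀ m, form A B m ξ = s 1 m) ∨
      ∃ ξ : Fin (2 * g + 1) → F, ∀ m, form A B m ξ = s c₀ m := by
    intro B hB hc
    obtain ⟨T, hT⟩ : ∃ T, T = A⁻¹ * B := ⟨_, rfl⟩
    have hTA : Tᵀ * A = A * T := by
      rw [hT]
      exact sa hA hu hB
    have hcT : T.charpoly = X * h := by
      rw [hT]
      exact hc
    have hf : aeval T (X * h) = 0 := annih hcT
    -- the idempotents
    have hid : ∀ e : F[X], aeval T (e * e) = aeval T e → aeval T e ≠ 0 →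
        ∃ w : Fin (2 * g + 1) → F, Lp A T w e ≠ 0 := by
      intro e _ he
      have h1 : (A * aeval T e).IsSymm := by
        show (A * aeval T e)ᵀ = _
        rw [Matrix.transpose_mul, hA.eq, sa_poly' hTA]
      have h3 : A * aeval T e ≠ 0 := by
        intro h0
        apply he
        have h4 := congrArg (A⁻¹ * ·) h0
        simp only [← Matrix.mul_assoc, Matrix.nonsing_inv_mul _ hu, Matrix.one_mul,
          Matrix.mul_zero] at h4
        exact h4
      exact aniso h2 h1 h3
    have hE1 : aeval T ((v * h) * (v * h)) = aeval T (v * h) := by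
      have h1 : (v * h) * (v * h) = v * h - (u * v) * (X * h) := by
        have : (v * h) * (v * h) = (v * h) * (u * X + v * h) - (u * v) * (X * h) := by ring
        rw [this, huv, mul_one]
      rw [h1, map_sub, map_mul (aeval T) (u * v), hf, mul_zero, sub_zero]
    have hE2 : aeval T ((u * X) * (u * X)) = aeval T (u * X) := by
      have h1 : (u * X) * (u * X) = u * X - (u * v) * (X * h) := by
        have : (u * X) * (u * X) = (u * X) * (u * X + v * h) - (u * v) * (X * h) := by ring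
        rw [this, huv, mul_one]
      rw [h1, map_sub, map_mul (aeval T) (u * v), hf, mul_zero, sub_zero]
    have hE12 : aeval T ((v * h) * (u * X)) = 0 := by
      have h1 : (v * h) * (u * X) = (u * v) * (X * h) := by ring
      rw [h1, map_mul, hf, mul_zero]
    obtain ⟨w₁, hw₁⟩ := hid (v * h) hE1 (ne1 hcT huv)
    obtain ⟨w₂, hw₂⟩ := hid (u * X) hE2 (ne2 hcT hg huv)
    obtain ⟨z, hz⟩ : ∃ z, z = aeval T (v * h) *ᵥ w₁ + aeval T (u * X) *ᵥ w₂ := ⟨_, rfl⟩
    have hproj : ∀ e : F[X], aeval T (e * e) = aeval T e → ∀ y : Fin (2 * g + 1) → F,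
        Lp A T y e = Lp A T (aeval T e *ᵥ y) 1 := by
      intro e he y
      have h1 := Lp_move (A := A) (T := T) y hTA 1 e
      have h3 : Lp A T (aeval T e *ᵥ y) 1 = Lp A T y (e * 1 * e) := by
        rw [← h1, Lp_apply]
      rw [h3, mul_one, Lp_apply, Lp_apply, he]
    have hz1 : aeval T (v * h) *ᵥ z = aeval T (v * h) *ᵥ w₁ := by
      rw [hz, Matrix.mulVec_add, Matrix.mulVec_mulVec, Matrix.mulVec_mulVec, ← map_mul, ← map_mul,
        hE1, hE12, Matrix.zero_mulVec, add_zero]
    have hz2 : aeval T (u * X) *ᵥ z = aeval T (u * X) *ᵥ w₂ := by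
      rw [hz, Matrix.mulVec_add, Matrix.mulVec_mulVec, Matrix.mulVec_mulVec, ← map_mul, ← map_mul,
        hE2, mul_comm (u * X) (v * h), hE12, Matrix.zero_mulVec, zero_add]
    have hL1 : Lp A T z (v * h) ≠ 0 := by
      rw [hproj _ hE1, hz1, ← hproj _ hE1]
      exact hw₁
    have hL2 : Lp A T z (u * X) ≠ 0 := by
      rw [hproj _ hE2, hz2, ← hproj _ hE2]
      exact hw₂
    -- the element `c`
    let ℓ : AdjoinRoot (X * h) →ₗ[F] F := (Lp A T z).comp (AdjoinRoot.modByMonicHom hfm)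
    have hℓ : ∀ p : F[X], ℓ (AdjoinRoot.mk (X * h) p) = Lp A T z p := by
      intro p
      show Lp A T z (AdjoinRoot.modByMonicHom hfm (AdjoinRoot.mk (X * h) p)) = _
      rw [AdjoinRoot.modByMonicHom_mk]
      have h3 := modByMonic_add_div p (X * h)
      conv_rhs => rw [← h3]
      rw [map_add]
      have h4 : Lp A T z ((X * h) * (p /ₘ (X * h))) = 0 := by
        rw [Lp_apply, map_mul (aeval T) (X * h), hf, zero_mul, mul_zero, Matrix.zero_mulVec,
          dotProduct_zero]
      rw [h4, add_zero]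
    obtain ⟨c, hc'⟩ := tp_exists hfm hfd ℓ
    have hcp : ∀ p : F[X], tp g hfm (c * AdjoinRoot.mk (X * h) p) = Lp A T z p := fun p => by
      rw [hc', hℓ]
    have hc10 : (ψ c).1 ≠ 0 := by
      intro h0
      apply hL1
      rw [← hcp]
      have h1 : c * AdjoinRoot.mk (X * h) (v * h) = 0 := by
        apply ψ.injective
        rw [map_mul, hψm, map_zero]
        ext
        · show (ψ c).1 * _ = 0
          rw [h0, zero_mul]
        · show (ψ c).2 * AdjoinRoot.mk h (v * h) = 0
          rw [map_mul, AdjoinRoot.mk_self, mul_zero, mul_zero]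
      rw [h1, map_zero]
    have hc20 : (ψ c).2 ≠ 0 := by
      intro h0
      apply hL2
      rw [← hcp]
      have h1 : c * AdjoinRoot.mk (X * h) (u * X) = 0 := by
        apply ψ.injective
        rw [map_mul, hψm, map_zero]
        ext
        · show (ψ c).1 * (u * X).eval 0 = 0
          rw [eval_mul, eval_X, mul_zero, mul_zero]
        · show (ψ c).2 * _ = 0
          rw [h0, zero_mul]
      rw [h1, map_zero]
    -- the norm
    have hMG : (MM T z)ᵀ * A * MM T z = Matrix.of fun i j : Fin (2 * g + 1) =>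
        tp g hfm (c * AdjoinRoot.root (X * h) ^ ((i : ℕ) + j)) := by
      ext i j
      have h1 := MM_gram hTA z 0 i j
      rw [pow_zero, Matrix.mul_one, add_zero] at h1
      have e1 : AdjoinRoot.root (X * h) ^ ((i : ℕ) + j) =
          AdjoinRoot.mk (X * h) (X ^ ((i : ℕ) + (j : ℕ))) := by
        rw [map_pow, AdjoinRoot.mk_X]
      rw [h1, Matrix.of_apply, e1, hcp, Lp_apply, map_pow, aeval_X]
    have hN : Algebra.norm F c = (x * (MM T z).det) ^ 2 := by
      have h3 := congrArg Matrix.det hMG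
      rw [tp_det hfm hfd, Matrix.det_mul, Matrix.det_mul, Matrix.det_transpose, hdet] at h3
      calc Algebra.norm F c = ((-1) ^ g * (-1) ^ g) * Algebra.norm F c := by rw [hone, one_mul]
        _ = (-1) ^ g * ((-1) ^ g * Algebra.norm F c) := by ring
        _ = (-1) ^ g * ((MM T z).det * ((-1) ^ g * x ^ 2) * (MM T z).det) := by rw [h3]
        _ = ((-1) ^ g * (-1) ^ g) * (x * (MM T z).det) ^ 2 := by ring
        _ = _ := by rw [hone, one_mul]
    rw [hnorm] at hN
    -- from squares to the vector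
    have hfin : ∀ (c' t : AdjoinRoot (X * h)), (ψ t).1 ≠ 0 → (ψ t).2 ≠ 0 → c = c' * (t * t) →
        ∃ ξ : Fin (2 * g + 1) → F, ∀ m, form A B m ξ = s c' m := by
      intro c' t ht1 ht2 hct
      obtain ⟨t', ht'⟩ : ∃ t', t * t' = 1 := by
        refine ⟨ψ.symm ((ψ t).1⁻¹, (ψ t).2⁻¹), ?_⟩
        apply ψ.injective
        rw [map_mul, AlgEquiv.apply_symm_apply, map_one]
        ext
        · exact mul_inv_cancel₀ ht1
        · exact mul_inv_cancel₀ ht2
      obtain ⟨r, hr⟩ := AdjoinRoot.mk_surjective t'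
      refine ⟨aeval T r *ᵥ z, fun m => ?_⟩
      have h3 : form A B m (aeval T r *ᵥ z) = Lp A T z (r * X ^ m * r) := by
        rw [← Lp_move z hTA, map_pow, aeval_X, hT]
        rfl
      have e9 : AdjoinRoot.mk (X * h) (r * X ^ m * r) =
          t' * AdjoinRoot.root (X * h) ^ m * t' := by
        rw [map_mul, map_mul, hr, map_pow, AdjoinRoot.mk_X]
      rw [h3, ← hcp, e9, hct]
      show _ = tp g hfm (c' * AdjoinRoot.root (X * h) ^ m)
      congr 1
      calc c' * (t * t) * (t' * AdjoinRoot.root (X * h) ^ m * t') =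
          c' * AdjoinRoot.root (X * h) ^ m * (t * t') * (t * t') := by ring
        _ = _ := by rw [ht', mul_one, mul_one]
    by_cases hsq : IsSquare (ψ c).1
    · left
      obtain ⟨a, ha⟩ := hsq
      have ha0 : a ≠ 0 := by
        rintro rfl
        rw [mul_zero] at ha
        exact hc10 ha
      have h3 : Algebra.norm F (ψ c).2 = (x * (MM T z).det / a) ^ 2 := by
        rw [ha] at hN
        rw [div_pow, eq_div_iff (pow_ne_zero 2 ha0)]
        linear_combination hN
      obtain ⟨b, hb⟩ := sq_of_norm h2 hc20 h3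
      have hb0 : b ≠ 0 := by
        rintro rfl
        rw [mul_zero] at hb
        exact hc20 hb.symm
      obtain ⟨t, ht⟩ : ∃ t, ψ t = (a, b) := ψ.surjective _
      refine hfin 1 t (by rw [ht]; exact ha0) (by rw [ht]; exact hb0) ?_
      apply ψ.injective
      rw [one_mul, map_mul, ht]
      ext
      · exact ha
      · exact hb.symm
    · right
      have hsq2 : ¬ IsSquare (ψ c).2 := by
        rintro ⟨b, hb⟩
        apply hsq
        have hb0 : Algebra.norm F b ≠ 0 := by
          rw [Ne, Algebra.norm_eq_zero_iff]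
          rintro rfl
          rw [mul_zero] at hb
          exact hc20 hb
        rw [hb, map_mul] at hN
        refine ⟨x * (MM T z).det / Algebra.norm F b, ?_⟩
        field_simp
        linear_combination hN
      obtain ⟨a, ha⟩ := nonsq hsq hn₁
      obtain ⟨b, hb⟩ := nonsq hsq2 hn₂
      have ha0 : a ≠ 0 := by
        rintro rfl
        rw [mul_zero, mul_zero] at ha
        exact hc10 ha
      have hb0 : b ≠ 0 := by
        rintro rfl
        rw [mul_zero, mul_zero] at hb
        exact hc20 hb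
      obtain ⟨t, ht⟩ : ∃ t, ψ t = (a, b) := ψ.surjective _
      refine hfin c₀ t (by rw [ht]; exact ha0) (by rw [ht]; exact hb0) ?_
      apply ψ.injective
      rw [map_mul, map_mul, ht, hc₀]
      ext
      · exact ha
      · exact hb
  -- the count
  haveI : Finite (Mt g F) := inferInstance
  let D : AdjoinRoot (X * h) → Type := fun c => {B : Mt g F // B.IsSymm ∧ chp A B = X * h ∧
        ∃ ξ : Fin (2 * g + 1) → F, ∀ m, form A B m ξ = s c m}
  have hle : Nat.card {B : Mt g F // B.IsSymm ∧ chp A B = X * h} ≤ Nat.card (D 1 ⊕ D c₀) := by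
    refine Nat.card_le_card_of_injective (fun B =>
      if hh : ∃ ξ : Fin (2 * g + 1) → F, ∀ m, form A B.1 m ξ = s 1 m then
        Sum.inl ⟨B.1, B.2.1, B.2.2, hh⟩
      else Sum.inr ⟨B.1, B.2.1, B.2.2, (hall B.1 B.2.1 B.2.2).resolve_left hh⟩) ?_
    intro B B' hBB
    simp only at hBB
    split_ifs at hBB with h3 h4 h4
    · have h5 : B.1 = B'.1 := congrArg (fun z : D 1 => z.1) (Sum.inl.inj hBB)
      exact Subtype.ext h5
    · have h5 : B.1 = B'.1 := congrArg (fun z : D c₀ => z.1) (Sum.inr.inj hBB)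
      exact Subtype.ext h5
  rw [Nat.card_sum] at hle
  have h5 : 2 * Nat.card (D 1) ≤ Nat.card F ^ (g * (2 * g + 1)) := hc1
  have h6 : 2 * Nat.card (D c₀) ≤ Nat.card F ^ (g * (2 * g + 1)) := hc2
  omega

end CQC

/-- **piece CQC** -/
theorem cqc : Pool.Agent.Run7.h245.SR.S_CQC := by
  intro g κ _ _ hg h2 h hm hi hd A hA hdet
  obtain ⟨x, hx, hdet⟩ := hdet
  exact CQC.main hg h2 h hm hi hd hA hx hdet

end Pool.Agent.Run7.h13.SR
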